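import Pool.Agent.helper52.Welsh.FA

/-! WELSH PROJECT, module TR: two representations exclude the Fano configurations. -/

set_option autoImplicit false

namespace Pool.Agent.helper24.Welsh

open Finset Module

section general

variable {α K₁ K₂ V₁ V₂ : Type} [Field K₁] [Field K₂] [AddCommGroup V₁] [Module K₁ V₁]
  [AddCommGroup V₂] [Module K₂ V₂]

/-- the two families have the same closure operator on `E` -/
def TR_SP (K₁ K₂ : Type) [Field K₁] [Field K₂] {α V₁ V₂ : Type} [AddCommGroup V₁] [Module K₁ V₁]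
    [AddCommGroup V₂] [Module K₂ V₂] (v : α → V₁) (w : α → V₂) (E : Set α) : Prop :=
  ∀ J ⊆ E, ∀ e ∈ E, v e ∈ Submodule.span K₁ (v '' J) ↔ w e ∈ Submodule.span K₂ (w '' J)

theorem TR_aux {v : α → V₁} {w : α → V₂} {E : Set α}
    (h : ∀ I : Set α, I ⊆ E → (LinearIndepOn K₁ v I ↔ LinearIndepOn K₂ w I))
    {J : Set α} (hJ : J ⊆ E) : ∃ B ⊆ J, LinearIndepOn K₁ v B ∧ LinearIndepOn K₂ w B ∧
      Submodule.span K₁ (v '' B) = Submodule.span K₁ (v '' J) ∧
      Submodule.span K₂ (w '' B) = Submodule.span K₂ (w '' J) := by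
  obtain ⟨B, hB, -, hB2, hB3⟩ := exists_linearIndepOn_extension (K := K₁) (v := v)
    (s := (∅ : Set α)) (t := J) (linearIndepOn_empty K₁ v) (Set.empty_subset J)
  have hBw : LinearIndepOn K₂ w B := (h B (hB.trans hJ)).1 hB3
  refine ⟨B, hB, hB3, hBw, ?_, ?_⟩
  · apply le_antisymm (Submodule.span_mono (Set.image_mono hB))
    rw [Submodule.span_le]
    exact hB2
  · apply le_antisymm (Submodule.span_mono (Set.image_mono hB))
    rw [Submodule.span_le]
    rintro _ ⟨x, hx, rfl⟩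
    by_cases hxB : x ∈ B
    · exact Submodule.subset_span ⟨x, hxB, rfl⟩
    · by_contra hn
      have h1 : LinearIndepOn K₂ w (insert x B) :=
        (linearIndepOn_insert hxB).2 ⟨hBw, hn⟩
      have h2 : LinearIndepOn K₁ v (insert x B) :=
        (h _ (Set.insert_subset (hJ hx) (hB.trans hJ))).2 h1
      exact ((linearIndepOn_insert hxB).1 h2).2 (hB2 ⟨x, hx, rfl⟩)

theorem TR_SP_of {v : α → V₁} {w : α → V₂} {E : Set α}
    (h : ∀ I : Set α, I ⊆ E → (LinearIndepOn K₁ v I ↔ LinearIndepOn K₂ w I)) :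
    TR_SP K₁ K₂ v w E := by
  intro J hJ e he
  obtain ⟨B, hB, h1, h2, h3, h4⟩ := TR_aux h hJ
  rw [← h3, ← h4]
  by_cases heB : e ∈ B
  · exact iff_of_true (Submodule.subset_span ⟨e, heB, rfl⟩) (Submodule.subset_span ⟨e, heB, rfl⟩)
  · have h5 := h _ (Set.insert_subset he (hB.trans hJ))
    rw [linearIndepOn_insert heB, linearIndepOn_insert heB] at h5
    tauto

/-- passing to the contraction -/
theorem TR_SP.quot {v : α → V₁} {w : α → V₂} {E : Set α} (h : TR_SP K₁ K₂ v w E) {I : Set α}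
    (hI : I ⊆ E) : TR_SP K₁ K₂ (fun x => (Submodule.span K₁ (v '' I)).mkQ (v x))
      (fun x => (Submodule.span K₂ (w '' I)).mkQ (w x)) E := by
  intro J hJ e he
  have h1 : ∀ {K V : Type} [Field K] [AddCommGroup V] [Module K V] (u : α → V),
      (Submodule.span K (u '' I)).mkQ (u e) ∈
        Submodule.span K ((fun x => (Submodule.span K (u '' I)).mkQ (u x)) '' J) ↔
      u e ∈ Submodule.span K (u '' (J ∪ I)) := by
    intro K V _ _ _ u
    have h2 : (fun x => (Submodule.span K (u '' I)).mkQ (u x)) '' J =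
        (Submodule.span K (u '' I)).mkQ '' (u '' J) := by
      rw [Set.image_image]
    rw [h2, ← Submodule.map_span, ← Submodule.mem_comap, Submodule.comap_map_mkQ, Set.image_union,
      Submodule.span_union, sup_comm]
  rw [h1 v, h1 w]
  exact h _ (Set.union_subset hJ hI) e he

theorem TR_two {v : α → V₁} {w : α → V₂} {E : Set α} (h : TR_SP K₁ K₂ v w E) {a b d : α}
    (ha : a ∈ E) (hb : b ∈ E) (hd : d ∈ E) (he : v d = v a + v b)
    (h1 : v a ∉ Submodule.span K₁ {v b}) (h2 : v b ∉ Submodule.span K₁ {v a}) :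
    ∃ k l : K₂, w d = k • w a + l • w b ∧ k ≠ 0 ∧ l ≠ 0 := by
  have e1 := h {a, b} (Set.insert_subset ha (Set.singleton_subset_iff.2 hb)) d hd
  have e2 := h {a} (Set.singleton_subset_iff.2 ha) d hd
  have e3 := h {b} (Set.singleton_subset_iff.2 hb) d hd
  rw [Set.image_pair, Set.image_pair] at e1
  rw [Set.image_singleton, Set.image_singleton] at e2 e3
  have e4 : v d ∈ Submodule.span K₁ {v a, v b} := by
    rw [he]
    exact add_mem (Submodule.subset_span (by simp)) (Submodule.subset_span (by simp))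
  obtain ⟨k, l, hkl⟩ := Submodule.mem_span_pair.1 (e1.1 e4)
  refine ⟨k, l, hkl.symm, ?_, ?_⟩
  · rintro rfl
    apply h1
    have e5 := e3.2 (by
      rw [← hkl, zero_smul, zero_add]
      exact Submodule.smul_mem _ _ (Submodule.mem_span_singleton_self _))
    rw [he] at e5
    exact (Submodule.add_mem_iff_left _ (Submodule.mem_span_singleton_self _)).1 e5
  · rintro rfl
    apply h2
    have e5 := e2.2 (by
      rw [← hkl, zero_smul, add_zero]
      exact Submodule.smul_mem _ _ (Submodule.mem_span_singleton_self _))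
    rw [he] at e5
    exact (Submodule.add_mem_iff_right _ (Submodule.mem_span_singleton_self _)).1 e5

theorem TR_three {v : α → V₁} {w : α → V₂} {E : Set α} (h : TR_SP K₁ K₂ v w E) {p q s o : α}
    (hp : p ∈ E) (hq : q ∈ E) (hs : s ∈ E) (ho : o ∈ E) (he : v o = v p + v q + v s)
    (h1 : v p ∉ Submodule.span K₁ {v q, v s}) (h2 : v q ∉ Submodule.span K₁ {v p, v s})
    (h3 : v s ∉ Submodule.span K₁ {v p, v q}) :
    ∃ k l m : K₂, w o = k • w p + l • w q + m • w s ∧ k ≠ 0 ∧ l ≠ 0 ∧ m ≠ 0 := by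
  have e0 := h {p, q, s} (Set.insert_subset hp (Set.insert_subset hq (Set.singleton_subset_iff.2 hs)))
    o ho
  have e1 := h {q, s} (Set.insert_subset hq (Set.singleton_subset_iff.2 hs)) o ho
  have e2 := h {p, s} (Set.insert_subset hp (Set.singleton_subset_iff.2 hs)) o ho
  have e3 := h {p, q} (Set.insert_subset hp (Set.singleton_subset_iff.2 hq)) o ho
  rw [Set.image_pair, Set.image_pair] at e1 e2 e3
  simp only [Set.image_insert_eq, Set.image_singleton] at e0
  have e4 : v o ∈ Submodule.span K₁ {v p, v q, v s} := by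
    rw [he]
    exact add_mem (add_mem (Submodule.subset_span (by simp)) (Submodule.subset_span (by simp)))
      (Submodule.subset_span (by simp))
  obtain ⟨k, l, m, hkl⟩ := Submodule.mem_span_triple.1 (e0.1 e4)
  refine ⟨k, l, m, hkl.symm, ?_, ?_, ?_⟩
  · rintro rfl
    apply h1
    have e5 := e1.2 (by
      rw [← hkl, zero_smul, zero_add]
      exact Submodule.mem_span_pair.2 ⟨_, _, rfl⟩)
    have e6 : v p = v o - v q - v s := by rw [he]; abel
    rw [e6]
    exact sub_mem (sub_mem e5 (Submodule.subset_span (by simp))) (Submodule.subset_span (by simp))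
  · rintro rfl
    apply h2
    have e5 := e2.2 (by
      rw [← hkl, zero_smul, add_zero]
      exact Submodule.mem_span_pair.2 ⟨_, _, rfl⟩)
    have e6 : v q = v o - v p - v s := by rw [he]; abel
    rw [e6]
    exact sub_mem (sub_mem e5 (Submodule.subset_span (by simp))) (Submodule.subset_span (by simp))
  · rintro rfl
    apply h3
    have e5 := e3.2 (by
      rw [← hkl, zero_smul, add_zero]
      exact Submodule.mem_span_pair.2 ⟨_, _, rfl⟩)
    have e6 : v s = v o - v p - v q := by rw [he]; abel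
    rw [e6]
    exact sub_mem (sub_mem e5 (Submodule.subset_span (by simp))) (Submodule.subset_span (by simp))

theorem TR_ind3 {K Q : Type} [Field K] [AddCommGroup Q] [Module K Q] {a b c : Q}
    (h1 : a ∉ Submodule.span K {b, c}) (h2 : b ∉ Submodule.span K {a, c})
    (h3 : c ∉ Submodule.span K {a, b}) (i j k : K) (h : i • a + j • b + k • c = 0) :
    i = 0 ∧ j = 0 ∧ k = 0 := by
  refine ⟨?_, ?_, ?_⟩
  · by_contra hi
    apply h1
    refine Submodule.mem_span_pair.2 ⟨-(i⁻¹ * j), -(i⁻¹ * k), ?_⟩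
    have : a = i⁻¹ • (i • a + j • b + k • c) + (-(i⁻¹ * j) • b + -(i⁻¹ * k) • c) := by
      rw [smul_add, smul_add, smul_smul, inv_mul_cancel₀ hi]
      module
    rw [h, smul_zero, zero_add] at this
    exact this.symm
  · by_contra hi
    apply h2
    refine Submodule.mem_span_pair.2 ⟨-(j⁻¹ * i), -(j⁻¹ * k), ?_⟩
    have : b = j⁻¹ • (i • a + j • b + k • c) + (-(j⁻¹ * i) • a + -(j⁻¹ * k) • c) := by
      rw [smul_add, smul_add, smul_smul _ j, inv_mul_cancel₀ hi]
      module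
    rw [h, smul_zero, zero_add] at this
    exact this.symm
  · by_contra hi
    apply h3
    refine Submodule.mem_span_pair.2 ⟨-(k⁻¹ * i), -(k⁻¹ * j), ?_⟩
    have : c = k⁻¹ • (i • a + j • b + k • c) + (-(k⁻¹ * i) • a + -(k⁻¹ * j) • b) := by
      rw [smul_add, smul_add, smul_smul _ k, inv_mul_cancel₀ hi]
      module
    rw [h, smul_zero, zero_add] at this
    exact this.symm

theorem TR_ind4 {K Q : Type} [Field K] [AddCommGroup Q] [Module K Q] {a b c d : Q}
    (h1 : a ∉ Submodule.span K {b, c, d}) (h2 : b ∉ Submodule.span K {a, c, d})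
    (h3 : c ∉ Submodule.span K {a, b, d}) (h4 : d ∉ Submodule.span K {a, b, c})
    (i j k l : K) (h : i • a + j • b + k • c + l • d = 0) :
    i = 0 ∧ j = 0 ∧ k = 0 ∧ l = 0 := by
  refine ⟨?_, ?_, ?_, ?_⟩
  · by_contra hi
    apply h1
    refine Submodule.mem_span_triple.2 ⟨-(i⁻¹ * j), -(i⁻¹ * k), -(i⁻¹ * l), ?_⟩
    have : a = i⁻¹ • (i • a + j • b + k • c + l • d) +
        (-(i⁻¹ * j) • b + -(i⁻¹ * k) • c + -(i⁻¹ * l) • d) := by
      rw [smul_add, smul_add, smul_add, smul_smul, inv_mul_cancel₀ hi]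
      module
    rw [h, smul_zero, zero_add] at this
    exact this.symm
  · by_contra hi
    apply h2
    refine Submodule.mem_span_triple.2 ⟨-(j⁻¹ * i), -(j⁻¹ * k), -(j⁻¹ * l), ?_⟩
    have : b = j⁻¹ • (i • a + j • b + k • c + l • d) +
        (-(j⁻¹ * i) • a + -(j⁻¹ * k) • c + -(j⁻¹ * l) • d) := by
      rw [smul_add, smul_add, smul_add, smul_smul _ j, inv_mul_cancel₀ hi]
      module
    rw [h, smul_zero, zero_add] at this
    exact this.symm
  · by_contra hi
    apply h3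
    refine Submodule.mem_span_triple.2 ⟨-(k⁻¹ * i), -(k⁻¹ * j), -(k⁻¹ * l), ?_⟩
    have : c = k⁻¹ • (i • a + j • b + k • c + l • d) +
        (-(k⁻¹ * i) • a + -(k⁻¹ * j) • b + -(k⁻¹ * l) • d) := by
      rw [smul_add, smul_add, smul_add, smul_smul _ k, inv_mul_cancel₀ hi]
      module
    rw [h, smul_zero, zero_add] at this
    exact this.symm
  · by_contra hi
    apply h4
    refine Submodule.mem_span_triple.2 ⟨-(l⁻¹ * i), -(l⁻¹ * j), -(l⁻¹ * k), ?_⟩
    have : d = l⁻¹ • (i • a + j • b + k • c + l • d) +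
        (-(l⁻¹ * i) • a + -(l⁻¹ * j) • b + -(l⁻¹ * k) • c) := by
      rw [smul_add, smul_add, smul_add, smul_smul _ l, inv_mul_cancel₀ hi]
      module
    rw [h, smul_zero, zero_add] at this
    exact this.symm

end general

section F2

variable {Q : Type} [AddCommGroup Q] [Module (ZMod 2) Q]

theorem TR_n1 {a b c : Q} (hind : ∀ i j k : ZMod 2, i • a + j • b + k • c = 0 → i = 0 ∧ j = 0 ∧ k = 0)
    {x y : Q} (i j k i' j' k' : ZMod 2) (hx : x = i • a + j • b + k • c)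
    (hy : y = i' • a + j' • b + k' • c)
    (hd : ∀ t : ZMod 2, ¬ (i - t * i' = 0 ∧ j - t * j' = 0 ∧ k - t * k' = 0)) :
    x ∉ Submodule.span (ZMod 2) {y} := by
  intro h
  obtain ⟨t, ht⟩ := Submodule.mem_span_singleton.1 h
  apply hd t
  apply hind
  rw [hx, hy, ← sub_eq_zero, ← neg_eq_zero] at ht
  rw [← ht]
  module

theorem TR_n2 {a b c : Q} (hind : ∀ i j k : ZMod 2, i • a + j • b + k • c = 0 → i = 0 ∧ j = 0 ∧ k = 0)
    {x y z : Q} (i j k i' j' k' i'' j'' k'' : ZMod 2) (hx : x = i • a + j • b + k • c)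
    (hy : y = i' • a + j' • b + k' • c) (hz : z = i'' • a + j'' • b + k'' • c)
    (hd : ∀ t r : ZMod 2, ¬ (i - t * i' - r * i'' = 0 ∧ j - t * j' - r * j'' = 0 ∧
      k - t * k' - r * k'' = 0)) :
    x ∉ Submodule.span (ZMod 2) {y, z} := by
  intro h
  obtain ⟨t, r, ht⟩ := Submodule.mem_span_pair.1 h
  apply hd t r
  apply hind
  rw [hx, hy, hz, ← sub_eq_zero, ← neg_eq_zero] at ht
  rw [← ht]
  module

theorem TR_n3 {a b c d : Q} (hind : ∀ i j k l : ZMod 2, i • a + j • b + k • c + l • d = 0 →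
      i = 0 ∧ j = 0 ∧ k = 0 ∧ l = 0)
    {x y z : Q} (i j k l i' j' k' l' i'' j'' k'' l'' : ZMod 2)
    (hx : x = i • a + j • b + k • c + l • d)
    (hy : y = i' • a + j' • b + k' • c + l' • d) (hz : z = i'' • a + j'' • b + k'' • c + l'' • d)
    (hd : ∀ t r : ZMod 2, ¬ (i - t * i' - r * i'' = 0 ∧ j - t * j' - r * j'' = 0 ∧
      k - t * k' - r * k'' = 0 ∧ l - t * l' - r * l'' = 0)) :
    x ∉ Submodule.span (ZMod 2) {y, z} := by
  intro h
  obtain ⟨t, r, ht⟩ := Submodule.mem_span_pair.1 h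
  apply hd t r
  apply hind
  rw [hx, hy, hz, ← sub_eq_zero, ← neg_eq_zero] at ht
  rw [← ht]
  module

theorem TR_n4 {a b c d : Q} (hind : ∀ i j k l : ZMod 2, i • a + j • b + k • c + l • d = 0 →
      i = 0 ∧ j = 0 ∧ k = 0 ∧ l = 0) :
    a ∉ Submodule.span (ZMod 2) {b, c, d} ∧ b ∉ Submodule.span (ZMod 2) {a, c, d} ∧
      c ∉ Submodule.span (ZMod 2) {a, b, d} ∧ d ∉ Submodule.span (ZMod 2) {a, b, c} := by
  refine ⟨?_, ?_, ?_, ?_⟩ <;> intro h <;> obtain ⟨t, r, u, ht⟩ := Submodule.mem_span_triple.1 h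
  · have := (hind 1 (-t) (-r) (-u) (by
      rw [← sub_eq_zero, ← neg_eq_zero] at ht
      rw [← ht]
      module)).1
    exact one_ne_zero this
  · have := (hind (-t) 1 (-r) (-u) (by
      rw [← sub_eq_zero, ← neg_eq_zero] at ht
      rw [← ht]
      module)).2.1
    exact one_ne_zero this
  · have := (hind (-t) (-r) 1 (-u) (by
      rw [← sub_eq_zero, ← neg_eq_zero] at ht
      rw [← ht]
      module)).2.2.1
    exact one_ne_zero this
  · have := (hind (-t) (-r) (-u) 1 (by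
      rw [← sub_eq_zero, ← neg_eq_zero] at ht
      rw [← ht]
      module)).2.2.2
    exact one_ne_zero this

end F2

section config

variable {α K₂ V₁ V₂ : Type} [Field K₂] [AddCommGroup V₁] [Module (ZMod 2) V₁]
  [AddCommGroup V₂] [Module K₂ V₂]

theorem TR_dbl (x : V₁) : x + x = 0 := by
  have h : (2 : ZMod 2) • x = 0 := by
    rw [show (2 : ZMod 2) = 0 from rfl, zero_smul]
  rwa [two_smul] at h

theorem TR_f7 {v : α → V₁} {w : α → V₂} {E : Set α} (h : TR_SP (ZMod 2) K₂ v w E)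
    (h2 : (2 : K₂) ≠ 0) {a b c d e f g : α} (ha : a ∈ E) (hb : b ∈ E) (hc : c ∈ E) (hd : d ∈ E)
    (he : e ∈ E) (hf : f ∈ E) (hg : g ∈ E)
    (hind : ∀ i j k : ZMod 2, i • v a + j • v b + k • v c = 0 → i = 0 ∧ j = 0 ∧ k = 0)
    (ed : v d = v a + v b) (ee : v e = v a + v c) (ef : v f = v b + v c)
    (eg : v g = v a + v b + v c) : False := by
  have ca : v a = (1 : ZMod 2) • v a + (0 : ZMod 2) • v b + (0 : ZMod 2) • v c := by module
  have cb : v b = (0 : ZMod 2) • v a + (1 : ZMod 2) • v b + (0 : ZMod 2) • v c := by module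
  have cc : v c = (0 : ZMod 2) • v a + (0 : ZMod 2) • v b + (1 : ZMod 2) • v c := by module
  have cd : v d = (1 : ZMod 2) • v a + (1 : ZMod 2) • v b + (0 : ZMod 2) • v c := by rw [ed]; module
  have ce : v e = (1 : ZMod 2) • v a + (0 : ZMod 2) • v b + (1 : ZMod 2) • v c := by rw [ee]; module
  have cf : v f = (0 : ZMod 2) • v a + (1 : ZMod 2) • v b + (1 : ZMod 2) • v c := by rw [ef]; module
  have hsw : ∀ {x y z : α}, x ∈ E → y ∈ E → z ∈ E →
      v x ∉ Submodule.span (ZMod 2) {v y, v z} → w x ∉ Submodule.span K₂ {w y, w z} := by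
    intro x y z hx hy hz hn hm
    apply hn
    have := h {y, z} (Set.insert_subset hy (Set.singleton_subset_iff.2 hz)) x hx
    rw [Set.image_pair, Set.image_pair] at this
    exact this.2 hm
  have hindw : ∀ i j k : K₂, i • w a + j • w b + k • w c = 0 → i = 0 ∧ j = 0 ∧ k = 0 :=
    TR_ind3 (hsw ha hb hc (TR_n2 hind _ _ _ _ _ _ _ _ _ ca cb cc (by decide)))
      (hsw hb ha hc (TR_n2 hind _ _ _ _ _ _ _ _ _ cb ca cc (by decide)))
      (hsw hc ha hb (TR_n2 hind _ _ _ _ _ _ _ _ _ cc ca cb (by decide)))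
  have efd : v f = v d + v e := by
    rw [ed, ee, ef, show v a + v b + (v a + v c) = (v a + v a) + (v b + v c) by abel, TR_dbl,
      zero_add]
  have egf : v g = v a + v f := by rw [eg, ef]; abel
  have ege : v g = v b + v e := by rw [eg, ee]; abel
  have egd : v g = v c + v d := by rw [eg, ed]; abel
  obtain ⟨d1, d2, hd', nd1, nd2⟩ := TR_two h ha hb hd ed
    (TR_n1 hind _ _ _ _ _ _ ca cb (by decide)) (TR_n1 hind _ _ _ _ _ _ cb ca (by decide))
  obtain ⟨e1, e2, he', ne1, ne2⟩ := TR_two h ha hc he ee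
    (TR_n1 hind _ _ _ _ _ _ ca cc (by decide)) (TR_n1 hind _ _ _ _ _ _ cc ca (by decide))
  obtain ⟨f1, f2, hf', nf1, nf2⟩ := TR_two h hb hc hf ef
    (TR_n1 hind _ _ _ _ _ _ cb cc (by decide)) (TR_n1 hind _ _ _ _ _ _ cc cb (by decide))
  obtain ⟨f3, f4, hf'', nf3, nf4⟩ := TR_two h hd he hf efd
    (TR_n1 hind _ _ _ _ _ _ cd ce (by decide)) (TR_n1 hind _ _ _ _ _ _ ce cd (by decide))
  obtain ⟨g1, g2, hg', ng1, ng2⟩ := TR_two h ha hf hg egf
    (TR_n1 hind _ _ _ _ _ _ ca cf (by decide)) (TR_n1 hind _ _ _ _ _ _ cf ca (by decide))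
  obtain ⟨g3, g4, hg'', ng3, ng4⟩ := TR_two h hb he hg ege
    (TR_n1 hind _ _ _ _ _ _ cb ce (by decide)) (TR_n1 hind _ _ _ _ _ _ ce cb (by decide))
  obtain ⟨g5, g6, hg''', ng5, ng6⟩ := TR_two h hc hd hg egd
    (TR_n1 hind _ _ _ _ _ _ cc cd (by decide)) (TR_n1 hind _ _ _ _ _ _ cd cc (by decide))
  exact f7_alg h2 hindw hd' he' hf' hf'' hg' hg'' hg''' ⟨nd1, nd2, ne1, ne2, nf1, nf2, nf3, nf4,
    ng1, ng2, ng3, ng4, ng5, ng6⟩

theorem TR_f7s {v : α → V₁} {w : α → V₂} {E : Set α} (h : TR_SP (ZMod 2) K₂ v w E)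
    (h2 : (2 : K₂) ≠ 0) {p q s x o y z : α} (hp : p ∈ E) (hq : q ∈ E) (hs : s ∈ E) (hx : x ∈ E)
    (ho : o ∈ E) (hy : y ∈ E) (hz : z ∈ E)
    (hind : ∀ i j k l : ZMod 2, i • v p + j • v q + k • v s + l • v x = 0 →
      i = 0 ∧ j = 0 ∧ k = 0 ∧ l = 0)
    (eo : v o = v p + v q + v s) (ey : v y = v x + v p + v q) (ez : v z = v x + v p + v s) :
    False := by
  have cp : v p = (1 : ZMod 2) • v p + (0 : ZMod 2) • v q + (0 : ZMod 2) • v s +
    (0 : ZMod 2) • v x := by module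
  have cq : v q = (0 : ZMod 2) • v p + (1 : ZMod 2) • v q + (0 : ZMod 2) • v s +
    (0 : ZMod 2) • v x := by module
  have cs : v s = (0 : ZMod 2) • v p + (0 : ZMod 2) • v q + (1 : ZMod 2) • v s +
    (0 : ZMod 2) • v x := by module
  have cx : v x = (0 : ZMod 2) • v p + (0 : ZMod 2) • v q + (0 : ZMod 2) • v s +
    (1 : ZMod 2) • v x := by module
  have co : v o = (1 : ZMod 2) • v p + (1 : ZMod 2) • v q + (1 : ZMod 2) • v s +
    (0 : ZMod 2) • v x := by rw [eo]; module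
  have cy : v y = (1 : ZMod 2) • v p + (1 : ZMod 2) • v q + (0 : ZMod 2) • v s +
    (1 : ZMod 2) • v x := by rw [ey]; module
  have n4 := TR_n4 hind
  have hsw : ∀ {a b c d : α}, a ∈ E → b ∈ E → c ∈ E → d ∈ E →
      v a ∉ Submodule.span (ZMod 2) {v b, v c, v d} → w a ∉ Submodule.span K₂ {w b, w c, w d} := by
    intro a b c d ha hb hc hd hn hm
    apply hn
    have := h {b, c, d} (Set.insert_subset hb (Set.insert_subset hc
      (Set.singleton_subset_iff.2 hd))) a ha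
    simp only [Set.image_insert_eq, Set.image_singleton] at this
    exact this.2 hm
  have hindw : ∀ i j k l : K₂, i • w p + j • w q + k • w s + l • w x = 0 →
      i = 0 ∧ j = 0 ∧ k = 0 ∧ l = 0 :=
    TR_ind4 (hsw hp hq hs hx n4.1) (hsw hq hp hs hx n4.2.1) (hsw hs hp hq hx n4.2.2.1)
      (hsw hx hp hq hs n4.2.2.2)
  have eyo : v y = v x + v s + v o := by
    rw [ey, eo, show v x + v s + (v p + v q + v s) = (v s + v s) + (v x + v p + v q) by abel,
      TR_dbl, zero_add]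
  have ezo : v z = v x + v q + v o := by
    rw [ez, eo, show v x + v q + (v p + v q + v s) = (v q + v q) + (v x + v p + v s) by abel,
      TR_dbl, zero_add]
  have ezy : v z = v y + v q + v s := by
    rw [ez, ey, show v x + v p + v q + v q + v s = (v q + v q) + (v x + v p + v s) by abel,
      TR_dbl, zero_add]
  have ezp : v z = v y + v p + v o := by
    rw [ez, ey, eo, show v x + v p + v q + v p + (v p + v q + v s) =
      (v q + v q) + (v p + v p) + (v x + v p + v s) by abel, TR_dbl, TR_dbl, zero_add, zero_add]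
  obtain ⟨o1, o2, o3, ho', no1, no2, no3⟩ := TR_three h hp hq hs ho eo
    (TR_n3 hind _ _ _ _ _ _ _ _ _ _ _ _ cp cq cs (by decide))
    (TR_n3 hind _ _ _ _ _ _ _ _ _ _ _ _ cq cp cs (by decide))
    (TR_n3 hind _ _ _ _ _ _ _ _ _ _ _ _ cs cp cq (by decide))
  obtain ⟨y1, y2, y3, hy', ny1, ny2, ny3⟩ := TR_three h hx hp hq hy ey
    (TR_n3 hind _ _ _ _ _ _ _ _ _ _ _ _ cx cp cq (by decide))
    (TR_n3 hind _ _ _ _ _ _ _ _ _ _ _ _ cp cx cq (by decide))
    (TR_n3 hind _ _ _ _ _ _ _ _ _ _ _ _ cq cx cp (by decide))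
  obtain ⟨y4, y5, y6, hy'', ny4, ny5, ny6⟩ := TR_three h hx hs ho hy eyo
    (TR_n3 hind _ _ _ _ _ _ _ _ _ _ _ _ cx cs co (by decide))
    (TR_n3 hind _ _ _ _ _ _ _ _ _ _ _ _ cs cx co (by decide))
    (TR_n3 hind _ _ _ _ _ _ _ _ _ _ _ _ co cx cs (by decide))
  obtain ⟨z1, z2, z3, hz1, nz1, nz2, nz3⟩ := TR_three h hx hp hs hz ez
    (TR_n3 hind _ _ _ _ _ _ _ _ _ _ _ _ cx cp cs (by decide))
    (TR_n3 hind _ _ _ _ _ _ _ _ _ _ _ _ cp cx cs (by decide))
    (TR_n3 hind _ _ _ _ _ _ _ _ _ _ _ _ cs cx cp (by decide))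
  obtain ⟨z4, z5, z6, hz2, nz4, nz5, nz6⟩ := TR_three h hx hq ho hz ezo
    (TR_n3 hind _ _ _ _ _ _ _ _ _ _ _ _ cx cq co (by decide))
    (TR_n3 hind _ _ _ _ _ _ _ _ _ _ _ _ cq cx co (by decide))
    (TR_n3 hind _ _ _ _ _ _ _ _ _ _ _ _ co cx cq (by decide))
  obtain ⟨z7, z8, z9, hz3, nz7, nz8, nz9⟩ := TR_three h hy hq hs hz ezy
    (TR_n3 hind _ _ _ _ _ _ _ _ _ _ _ _ cy cq cs (by decide))
    (TR_n3 hind _ _ _ _ _ _ _ _ _ _ _ _ cq cy cs (by decide))
    (TR_n3 hind _ _ _ _ _ _ _ _ _ _ _ _ cs cy cq (by decide))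
  obtain ⟨z10, z11, z12, hz4, nz10, nz11, nz12⟩ := TR_three h hy hp ho hz ezp
    (TR_n3 hind _ _ _ _ _ _ _ _ _ _ _ _ cy cp co (by decide))
    (TR_n3 hind _ _ _ _ _ _ _ _ _ _ _ _ cp cy co (by decide))
    (TR_n3 hind _ _ _ _ _ _ _ _ _ _ _ _ co cy cp (by decide))
  exact f7s_alg h2 hindw ho' hy' hy'' hz1 hz2 hz3 hz4 ⟨no1, no2, no3, ny1, ny2, ny3, ny4, ny5, ny6,
    nz1, nz2, nz3, nz4, nz5, nz6, nz7, nz8, nz9, nz10, nz11, nz12⟩

end config

/-- a matroid representable over GF(2) (by v) and over GF(3) (by w) gives a regular vector set -/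
theorem reg_of_two_reps {α : Type} [Finite α] (E : Set α) {n m : ℕ} (v : α → (Fin n → ZMod 2)) (w : α → (Fin m → ZMod 3))
    (h : ∀ I : Set α, I ⊆ E → (LinearIndependent (ZMod 2) (fun x : I => v x) ↔ LinearIndependent (ZMod 3) (fun x : I => w x)))
    (G : Finset (Fin n → ZMod 2)) (hG : ∀ g ∈ G, ∃ a ∈ E, v a = g) :
    Reg (⊥ : Submodule (ZMod 2) (Fin n → ZMod 2)) G := by
  have h2 : (2 : ZMod 3) ≠ 0 := by decide
  have : Fact (Nat.Prime 3) := ⟨by norm_num⟩
  have hSP : TR_SP (ZMod 2) (ZMod 3) v w E := TR_SP_of h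
  intro I hI
  set I0 : Set α := {x ∈ E | v x ∈ I} with hI0
  have hI0E : I0 ⊆ E := fun x hx => hx.1
  have himg : v '' I0 = (I : Set (Fin n → ZMod 2)) := by
    ext g
    constructor
    · rintro ⟨x, hx, rfl⟩
      exact hx.2
    · intro hg
      obtain ⟨x, hx, rfl⟩ := hG g (hI hg)
      exact ⟨x, ⟨hx, hg⟩, rfl⟩
  have hcl : cl (⊥ : Submodule (ZMod 2) (Fin n → ZMod 2)) I = Submodule.span (ZMod 2) (v '' I0) := by
    rw [himg]
    exact bot_sup_eq _
  have hq := hSP.quot hI0E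
  set U := Submodule.span (ZMod 2) (v '' I0) with hU
  have hneg : ∀ x y : (Fin n → ZMod 2) ⧸ U, x + y = 0 → y = x := by
    intro x y hxy
    have h1 := TR_dbl x
    rw [← hxy] at h1
    exact (add_left_cancel h1).symm
  rw [hcl]
  constructor
  · rintro ⟨a, ha, b, hb, c, hc, d, hd, e, he, f, hf, g, hg, hind, ed, ee, ef, eg⟩
    obtain ⟨a', ha', rfl⟩ := hG a ha
    obtain ⟨b', hb', rfl⟩ := hG b hb
    obtain ⟨c', hc', rfl⟩ := hG c hc
    obtain ⟨d', hd', rfl⟩ := hG d hd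
    obtain ⟨e', he', rfl⟩ := hG e he
    obtain ⟨f', hf', rfl⟩ := hG f hf
    obtain ⟨g', hg', rfl⟩ := hG g hg
    refine TR_f7 hq h2 ha' hb' hc' hd' he' hf' hg' ?_ ?_ ?_ ?_ ?_
    · intro i j k hijk
      apply hind
      rw [← Submodule.Quotient.mk_eq_zero U]
      exact hijk
    · apply hneg
      exact (Submodule.Quotient.mk_eq_zero U).2 ed
    · apply hneg
      exact (Submodule.Quotient.mk_eq_zero U).2 ee
    · apply hneg
      exact (Submodule.Quotient.mk_eq_zero U).2 ef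
    · apply hneg
      exact (Submodule.Quotient.mk_eq_zero U).2 eg
  · rintro ⟨p, hp, q, hq', s, hs, x, hx, o, ho, y, hy, z, hz, hind, eo, ey, ez⟩
    obtain ⟨p', hp', rfl⟩ := hG p hp
    obtain ⟨q', hq'', rfl⟩ := hG q hq'
    obtain ⟨s', hs', rfl⟩ := hG s hs
    obtain ⟨x', hx', rfl⟩ := hG x hx
    obtain ⟨o', ho', rfl⟩ := hG o ho
    obtain ⟨y', hy', rfl⟩ := hG y hy
    obtain ⟨z', hz', rfl⟩ := hG z hz
    refine TR_f7s hq h2 hp' hq'' hs' hx' ho' hy' hz' ?_ ?_ ?_ ?_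
    · intro i j k l hijk
      apply hind
      rw [← Submodule.Quotient.mk_eq_zero U]
      exact hijk
    · apply hneg
      exact (Submodule.Quotient.mk_eq_zero U).2 eo
    · apply hneg
      exact (Submodule.Quotient.mk_eq_zero U).2 ey
    · apply hneg
      exact (Submodule.Quotient.mk_eq_zero U).2 ez

end Pool.Agent.helper24.Welsh
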